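import Mathlib

/-! ME A6 (helper662 for helper500): Euler products at the edge, abstract form. -/

set_option autoImplicit false

namespace Pool.Agent.H662.ME.LFN

open Filter Topology Polynomial

theorem log_bound {x : ℂ} (hx : ‖x‖ ≤ 1 / 2) : ‖-Complex.log (1 - x) - x‖ ≤ ‖x‖ ^ 2 := by
  have h1 := Complex.norm_log_one_add_sub_self_le (z := -x) (by rw [norm_neg]; linarith)
  rw [norm_neg, ← sub_eq_add_neg] at h1
  have h2 : -Complex.log (1 - x) - x = -(Complex.log (1 - x) - -x) := by ring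
  rw [h2, norm_neg]
  refine h1.trans ?_
  have h3 : (1 - ‖x‖)⁻¹ ≤ 2 := by
    rw [inv_le_comm₀ (by linarith) (by norm_num)]
    linarith
  have h4 : ‖x‖ ^ 2 * (1 - ‖x‖)⁻¹ ≤ ‖x‖ ^ 2 * 2 :=
    mul_le_mul_of_nonneg_left h3 (sq_nonneg _)
  linarith

section

variable {V : Type} (q : V → ℕ) {n : ℕ} (w : ℝ) (α : V → Fin n → ℂ) (B : V → ℂ[X])

/-- the real variable at the place `v` -/
noncomputable def zz (v : V) (ε : ℝ) : ℝ := (q v : ℝ) ^ (-(w / 2 + 1 + ε))

/-- the good places -/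
def Good (v : V) : Prop :=
  (∀ i, ‖α v i‖ = (q v : ℝ) ^ (w / 2)) ∧ B v = ∏ i, (1 - C (α v i) * X)

/-- the normalized trace -/
noncomputable def FF (v : V) : ℂ := (∑ i, α v i) / (((q v : ℝ) ^ (w / 2) : ℝ) : ℂ)

open Classical in
/-- the main term of the logarithm -/
noncomputable def TT (v : V) (ε : ℝ) : ℂ :=
  if Good q w α B v then FF q w α v * (((q v : ℝ) ^ (-(1 + ε)) : ℝ) : ℂ) else 0

open Classical in
/-- the remainder of the logarithm -/
noncomputable def RR (v : V) (ε : ℝ) : ℂ :=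
  if Good q w α B v then
    ∑ i, (-Complex.log (1 - α v i * (zz q w v ε : ℂ)) - α v i * (zz q w v ε : ℂ)) else 0

variable {q w α B}

theorem norm_x (hq : ∀ v, 2 ≤ q v) {v : V} (hv : Good q w α B v) (i : Fin n) (ε : ℝ) :
    ‖α v i * (zz q w v ε : ℂ)‖ = (q v : ℝ) ^ (-(1 + ε)) := by
  have hq0 : (0 : ℝ) < q v := by
    have := hq v
    exact_mod_cast (by omega : 0 < q v)
  rw [norm_mul, hv.1 i, Complex.norm_real, Real.norm_eq_abs, zz,
    abs_of_pos (Real.rpow_pos_of_pos hq0 _), ← Real.rpow_add hq0]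
  congr 1
  ring

theorem qpow_le (hq : ∀ v, 2 ≤ q v) (v : V) {ε : ℝ} (hε : 0 ≤ ε) :
    (q v : ℝ) ^ (-(1 + ε)) ≤ (q v : ℝ) ^ (-1 : ℝ) ∧ (q v : ℝ) ^ (-1 : ℝ) ≤ 1 / 2 := by
  have hq2 : (2 : ℝ) ≤ q v := by exact_mod_cast hq v
  refine ⟨Real.rpow_le_rpow_of_exponent_le (by linarith) (by linarith), ?_⟩
  rw [Real.rpow_neg_one, one_div]
  exact inv_anti₀ (by norm_num) hq2

theorem x_le (hq : ∀ v, 2 ≤ q v) {v : V} (hv : Good q w α B v) (i : Fin n) {ε : ℝ}
    (hε : 0 ≤ ε) : ‖α v i * (zz q w v ε : ℂ)‖ ≤ 1 / 2 := by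
  rw [norm_x hq hv]
  exact (qpow_le hq v hε).1.trans (qpow_le hq v hε).2

theorem RR_norm (hq : ∀ v, 2 ≤ q v) (v : V) {ε : ℝ} (hε : 0 ≤ ε) :
    ‖RR q w α B v ε‖ ≤ (n : ℝ) * (q v : ℝ) ^ (-2 : ℝ) := by
  have hq0 : (0 : ℝ) < q v := by
    have := hq v
    exact_mod_cast (by omega : 0 < q v)
  unfold RR
  split_ifs with hv
  · refine (norm_sum_le _ _).trans ?_
    calc ∑ i : Fin n, ‖-Complex.log (1 - α v i * (zz q w v ε : ℂ)) - α v i * (zz q w v ε : ℂ)‖
        ≤ ∑ _i : Fin n, (q v : ℝ) ^ (-2 : ℝ) := by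
          refine Finset.sum_le_sum fun i _ => ?_
          refine (log_bound (x_le hq hv i hε)).trans ?_
          rw [norm_x hq hv]
          calc ((q v : ℝ) ^ (-(1 + ε))) ^ 2 ≤ ((q v : ℝ) ^ (-1 : ℝ)) ^ 2 :=
                pow_le_pow_left₀ (Real.rpow_nonneg hq0.le _) (qpow_le hq v hε).1 2
            _ = (q v : ℝ) ^ (-2 : ℝ) := by
                rw [← Real.rpow_natCast, ← Real.rpow_mul hq0.le]
                norm_num
      _ = (n : ℝ) * (q v : ℝ) ^ (-2 : ℝ) := by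
          rw [Finset.sum_const, Finset.card_univ, Fintype.card_fin, nsmul_eq_mul]
  · rw [norm_zero]
    positivity

theorem FF_norm (hq : ∀ v, 2 ≤ q v) {v : V} (hv : Good q w α B v) :
    ‖FF q w α v‖ ≤ n := by
  have hq0 : (0 : ℝ) < q v := by
    have := hq v
    exact_mod_cast (by omega : 0 < q v)
  have h0 : 0 < (q v : ℝ) ^ (w / 2) := Real.rpow_pos_of_pos hq0 _
  unfold FF
  rw [norm_div, Complex.norm_real, Real.norm_eq_abs, abs_of_pos h0, div_le_iff₀ h0]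
  refine (norm_sum_le _ _).trans ?_
  rw [Finset.sum_congr rfl fun i _ => hv.1 i, Finset.sum_const, Finset.card_univ,
    Fintype.card_fin, nsmul_eq_mul]

theorem TT_norm (hq : ∀ v, 2 ≤ q v) (v : V) (ε : ℝ) :
    ‖TT q w α B v ε‖ ≤ (n : ℝ) * (q v : ℝ) ^ (-(1 + ε)) := by
  unfold TT
  split_ifs with hv
  · rw [norm_mul, Complex.norm_real, Real.norm_eq_abs, abs_of_nonneg (by positivity)]
    exact mul_le_mul_of_nonneg_right (FF_norm hq hv) (by positivity)
  · rw [norm_zero]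
    positivity

/-- the local factor at a good place -/
theorem local_factor (hq : ∀ v, 2 ≤ q v) {v : V} (hv : Good q w α B v) {ε : ℝ} (hε : 0 ≤ ε) :
    Complex.exp (TT q w α B v ε + RR q w α B v ε) = ((B v).eval (zz q w v ε : ℂ))⁻¹ := by
  have hq0 : (0 : ℝ) < q v := by
    have := hq v
    exact_mod_cast (by omega : 0 < q v)
  have hne : ∀ i, 1 - α v i * (zz q w v ε : ℂ) ≠ 0 := by
    intro i h
    have h1 : α v i * (zz q w v ε : ℂ) = 1 := by linear_combination -h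
    have h2 := x_le hq hv i hε
    rw [h1, norm_one] at h2
    norm_num at h2
  have hT : TT q w α B v ε = ∑ i, α v i * (zz q w v ε : ℂ) := by
    unfold TT FF zz
    rw [if_pos hv, ← Finset.sum_mul]
    have h1 : (q v : ℝ) ^ (-(w / 2 + 1 + ε)) =
        ((q v : ℝ) ^ (w / 2))⁻¹ * (q v : ℝ) ^ (-(1 + ε)) := by
      rw [← Real.rpow_neg hq0.le, ← Real.rpow_add hq0]
      congr 1
      ring
    rw [h1]
    push_cast
    ring
  have hG : TT q w α B v ε + RR q w α B v ε =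
      ∑ i, -Complex.log (1 - α v i * (zz q w v ε : ℂ)) := by
    rw [hT]
    unfold RR
    rw [if_pos hv, ← Finset.sum_add_distrib]
    refine Finset.sum_congr rfl fun i _ => ?_
    ring
  rw [hG, Complex.exp_sum, hv.2, eval_prod, ← Finset.prod_inv_distrib]
  refine Finset.prod_congr rfl fun i _ => ?_
  rw [Complex.exp_neg, Complex.exp_log (hne i)]
  simp

theorem zz_tendsto (hq : ∀ v, 2 ≤ q v) (v : V) :
    Tendsto (fun ε : ℝ => (zz q w v ε : ℂ)) (𝓝[>] 0) (𝓝 (zz q w v 0 : ℂ)) := by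
  have hq0 : (0 : ℝ) < q v := by
    have := hq v
    exact_mod_cast (by omega : 0 < q v)
  have h1 : Continuous fun ε : ℝ => (zz q w v ε : ℂ) := by
    unfold zz
    refine Complex.continuous_ofReal.comp ?_
    exact Continuous.rpow continuous_const (by fun_prop) fun ε => Or.inl hq0.ne'
  exact (h1.tendsto 0).mono_left nhdsWithin_le_nhds

theorem RR_tendsto (hq : ∀ v, 2 ≤ q v) (v : V) :
    Tendsto (fun ε : ℝ => RR q w α B v ε) (𝓝[>] 0) (𝓝 (RR q w α B v 0)) := by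
  unfold RR
  split_ifs with hv
  · refine tendsto_finsetSum _ fun i _ => ?_
    have h1 : Tendsto (fun ε : ℝ => α v i * (zz q w v ε : ℂ)) (𝓝[>] 0)
        (𝓝 (α v i * (zz q w v 0 : ℂ))) := (zz_tendsto hq v).const_mul _
    have h2 : 1 - α v i * (zz q w v 0 : ℂ) ∈ Complex.slitPlane := by
      rw [Complex.mem_slitPlane_iff]
      left
      have h3 := x_le hq hv i (le_refl (0 : ℝ))
      have h4 : (α v i * (zz q w v 0 : ℂ)).re ≤ ‖α v i * (zz q w v 0 : ℂ)‖ :=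
        Complex.re_le_norm _
      rw [Complex.sub_re, Complex.one_re]
      linarith
    exact (((tendsto_const_nhds.sub h1).clog h2).neg).sub h1
  · exact tendsto_const_nhds

/-- **the Euler product at the edge**, abstract form -/
theorem main_abs (hq : ∀ v, 2 ≤ q v) (hsum : ∀ s : ℝ, s < -1 → Summable fun v => (q v : ℝ) ^ s)
    (r : ℕ) (hα : ∀ᶠ v in cofinite, ∀ i, ‖α v i‖ = (q v : ℝ) ^ (w / 2))
    (hB : ∀ᶠ v in cofinite, B v = ∏ i, (1 - C (α v i) * X))
    (hB0 : ∀ v, (B v).eval (((q v : ℝ) ^ (-(w / 2 + 1)) : ℝ) : ℂ) ≠ 0) (c₀ : ℂ)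
    (hF : Tendsto (fun s : ℝ => (∑' v, FF q w α v * (((q v : ℝ) ^ (-s) : ℝ) : ℂ)) +
      (r : ℂ) * ((Real.log (s - 1) : ℝ) : ℂ)) (𝓝[>] 1) (𝓝 c₀)) :
    ∃ c : ℂ, c ≠ 0 ∧ Tendsto (fun ε : ℝ => (ε : ℂ) ^ r * ∏' v,
      ((B v).eval (((q v : ℝ) ^ (-(w / 2 + 1 + ε)) : ℝ) : ℂ))⁻¹) (𝓝[>] 0) (𝓝 c) := by
  classical
  have hq0 : ∀ v, (0 : ℝ) < q v := by
    intro v
    have := hq v
    exact_mod_cast (by omega : 0 < q v)
  have hgood : ∀ᶠ v in cofinite, Good q w α B v := by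
    filter_upwards [hα, hB] with v h1 h2
    exact ⟨h1, h2⟩
  have hfin : {v | ¬ Good q w α B v}.Finite := hgood
  set S : Finset V := hfin.toFinset with hS
  have hmem : ∀ v, v ∈ S ↔ ¬ Good q w α B v := by
    intro v
    rw [hS, Set.Finite.mem_toFinset]
    exact Iff.rfl
  -- the local factors
  set P : ℝ → V → ℂ := fun ε v => ((B v).eval (zz q w v ε : ℂ))⁻¹ with hP
  -- summability
  have hsT : ∀ ε : ℝ, 0 < ε → Summable fun v => TT q w α B v ε := by
    intro ε hε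
    have h1 : Summable fun v => (n : ℝ) * (q v : ℝ) ^ (-(1 + ε)) :=
      (hsum (-(1 + ε)) (by linarith)).mul_left _
    exact Summable.of_norm_bounded h1 fun v => TT_norm hq v ε
  have hsR' : Summable fun v => (n : ℝ) * (q v : ℝ) ^ (-2 : ℝ) :=
    (hsum (-2) (by norm_num)).mul_left _
  have hsR : ∀ ε : ℝ, 0 ≤ ε → Summable fun v => RR q w α B v ε := fun ε hε =>
    Summable.of_norm_bounded hsR' fun v => RR_norm hq v hε
  -- the product
  have hprod : ∀ ε : ℝ, 0 < ε → ∏' v, P ε v = (∏ v ∈ S, P ε v) *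
      Complex.exp ((∑' v, TT q w α B v ε) + ∑' v, RR q w α B v ε) := by
    intro ε hε
    have h1 : HasProd (fun v => Complex.exp (TT q w α B v ε + RR q w α B v ε))
        (Complex.exp ((∑' v, TT q w α B v ε) + ∑' v, RR q w α B v ε)) :=
      ((hsT ε hε).hasSum.add (hsR ε hε.le).hasSum).cexp
    have h2 : ∀ v ∉ S, (if Good q w α B v then (1 : ℂ) else P ε v) = 1 := by
      intro v hv
      rw [hmem, not_not] at hv
      rw [if_pos hv]
    have h3 : HasProd (fun v => if Good q w α B v then (1 : ℂ) else P ε v)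
        (∏ v ∈ S, if Good q w α B v then (1 : ℂ) else P ε v) := hasProd_prod_of_ne_finset_one h2
    have h4 : (∏ v ∈ S, if Good q w α B v then (1 : ℂ) else P ε v) = ∏ v ∈ S, P ε v := by
      refine Finset.prod_congr rfl fun v hv => ?_
      rw [if_neg ((hmem v).1 hv)]
    rw [h4] at h3
    have h5 := h3.mul h1
    refine HasProd.tprod_eq ?_
    have h6 : (fun v => (if Good q w α B v then (1 : ℂ) else P ε v) *
        Complex.exp (TT q w α B v ε + RR q w α B v ε)) = P ε := by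
      funext v
      by_cases hv : Good q w α B v
      · rw [if_pos hv, one_mul, local_factor hq hv hε.le]
      · rw [if_neg hv]
        unfold TT RR
        rw [if_neg hv, if_neg hv, add_zero, Complex.exp_zero, mul_one]
    rw [h6] at h5
    exact h5
  -- the main term
  have hmain : ∀ ε : ℝ, 0 < ε → ∑' v, TT q w α B v ε =
      (∑' v, FF q w α v * (((q v : ℝ) ^ (-(1 + ε)) : ℝ) : ℂ)) -
        ∑ v ∈ S, FF q w α v * (((q v : ℝ) ^ (-(1 + ε)) : ℝ) : ℂ) := by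
    intro ε hε
    have h2 : ∀ v ∉ S, (if Good q w α B v then (0 : ℂ) else
        FF q w α v * (((q v : ℝ) ^ (-(1 + ε)) : ℝ) : ℂ)) = 0 := by
      intro v hv
      rw [hmem, not_not] at hv
      rw [if_pos hv]
    have h3 : HasSum (fun v => if Good q w α B v then (0 : ℂ) else
        FF q w α v * (((q v : ℝ) ^ (-(1 + ε)) : ℝ) : ℂ))
        (∑ v ∈ S, if Good q w α B v then (0 : ℂ) else
        FF q w α v * (((q v : ℝ) ^ (-(1 + ε)) : ℝ) : ℂ)) := hasSum_sum_of_ne_finset_zero h2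
    have h4 : (∑ v ∈ S, if Good q w α B v then (0 : ℂ) else
        FF q w α v * (((q v : ℝ) ^ (-(1 + ε)) : ℝ) : ℂ)) =
        ∑ v ∈ S, FF q w α v * (((q v : ℝ) ^ (-(1 + ε)) : ℝ) : ℂ) := by
      refine Finset.sum_congr rfl fun v hv => ?_
      rw [if_neg ((hmem v).1 hv)]
    rw [h4] at h3
    have h5 := (hsT ε hε).hasSum.add h3
    have h6 : (fun v => TT q w α B v ε + (if Good q w α B v then (0 : ℂ) else
        FF q w α v * (((q v : ℝ) ^ (-(1 + ε)) : ℝ) : ℂ))) =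
        fun v => FF q w α v * (((q v : ℝ) ^ (-(1 + ε)) : ℝ) : ℂ) := by
      funext v
      unfold TT
      by_cases hv : Good q w α B v
      · rw [if_pos hv, if_pos hv, add_zero]
      · rw [if_neg hv, if_neg hv, zero_add]
    rw [h6] at h5
    rw [h5.tsum_eq]
    ring
  -- limits
  have hlim1 : Tendsto (fun ε : ℝ => (∑' v, FF q w α v * (((q v : ℝ) ^ (-(1 + ε)) : ℝ) : ℂ)) +
      (r : ℂ) * ((Real.log ε : ℝ) : ℂ)) (𝓝[>] 0) (𝓝 c₀) := by
    have h1 : Tendsto (fun ε : ℝ => 1 + ε) (𝓝[>] 0) (𝓝[>] 1) := by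
      refine tendsto_nhdsWithin_iff.2 ⟨?_, ?_⟩
      · have h2 : Tendsto (fun ε : ℝ => 1 + ε) (𝓝 0) (𝓝 (1 + 0)) :=
          tendsto_const_nhds.add tendsto_id
        rw [add_zero] at h2
        exact h2.mono_left nhdsWithin_le_nhds
      · filter_upwards [self_mem_nhdsWithin] with ε hε
        have h3 : (0 : ℝ) < ε := hε
        show (1 : ℝ) < 1 + ε
        linarith
    refine (hF.comp h1).congr fun ε => ?_
    show (∑' v, FF q w α v * (((q v : ℝ) ^ (-(1 + ε)) : ℝ) : ℂ)) +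
      (r : ℂ) * ((Real.log (1 + ε - 1) : ℝ) : ℂ) = _
    rw [add_sub_cancel_left]
  have hlim2 : Tendsto (fun ε : ℝ => ∑ v ∈ S, FF q w α v * (((q v : ℝ) ^ (-(1 + ε)) : ℝ) : ℂ))
      (𝓝[>] 0) (𝓝 (∑ v ∈ S, FF q w α v * (((q v : ℝ) ^ (-(1 + (0 : ℝ))) : ℝ) : ℂ))) := by
    refine tendsto_finsetSum _ fun v _ => ?_
    have h1 : Continuous fun ε : ℝ => (((q v : ℝ) ^ (-(1 + ε)) : ℝ) : ℂ) := by
      refine Complex.continuous_ofReal.comp ?_
      exact Continuous.rpow continuous_const (by fun_prop) fun ε => Or.inl (hq0 v).ne'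
    exact ((h1.tendsto 0).mono_left nhdsWithin_le_nhds).const_mul _
  have hlim3 : Tendsto (fun ε : ℝ => ∑' v, RR q w α B v ε) (𝓝[>] 0)
      (𝓝 (∑' v, RR q w α B v 0)) := by
    refine tendsto_tsum_of_dominated_convergence hsR' (fun v => RR_tendsto hq v) ?_
    filter_upwards [self_mem_nhdsWithin] with ε hε v
    exact RR_norm hq v (le_of_lt hε)
  have hlim4 : Tendsto (fun ε : ℝ => ∏ v ∈ S, P ε v) (𝓝[>] 0) (𝓝 (∏ v ∈ S, P 0 v)) := by
    refine tendsto_finsetProd _ fun v _ => ?_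
    have h1 : (B v).eval (zz q w v 0 : ℂ) ≠ 0 := by
      have h2 := hB0 v
      unfold zz
      rw [add_zero]
      exact h2
    exact (((B v).continuous.tendsto _).comp (zz_tendsto hq v)).inv₀ h1
  have hne : (∏ v ∈ S, P 0 v) ≠ 0 := by
    rw [Finset.prod_ne_zero_iff]
    intro v _
    have h2 := hB0 v
    simp only [hP]
    unfold zz
    rw [add_zero]
    exact inv_ne_zero h2
  refine ⟨(∏ v ∈ S, P 0 v) * Complex.exp ((c₀ - ∑ v ∈ S, FF q w α v *
    (((q v : ℝ) ^ (-(1 + (0 : ℝ))) : ℝ) : ℂ)) + ∑' v, RR q w α B v 0),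
    mul_ne_zero hne (Complex.exp_ne_zero _), ?_⟩
  have hlim := hlim4.mul (((hlim1.sub hlim2).add hlim3).cexp)
  refine hlim.congr' ?_
  filter_upwards [self_mem_nhdsWithin] with ε hε
  have hε' : (0 : ℝ) < ε := hε
  have h1 : (ε : ℂ) ^ r = Complex.exp ((r : ℂ) * ((Real.log ε : ℝ) : ℂ)) := by
    rw [Complex.exp_nat_mul, ← Complex.ofReal_exp, Real.exp_log hε']
  have h2 : (∏' v, ((B v).eval (((q v : ℝ) ^ (-(w / 2 + 1 + ε)) : ℝ) : ℂ))⁻¹) =
      ∏' v, P ε v := rfl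
  rw [h2, hprod ε hε', hmain ε hε', h1]
  have h3 : ∀ a b c d e : ℂ, a * Complex.exp (b + c - d + e) =
      Complex.exp c * (a * Complex.exp (b - d + e)) := by
    intro a b c d e
    rw [show b + c - d + e = c + (b - d + e) by ring, Complex.exp_add]
    ring
  exact h3 _ _ _ _ _

end

end Pool.Agent.H662.ME.LFN
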