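import Pool.Agent.H500.ME.Stm
import Pool.Graph.R_pool_sql_team_seeded_47a924f7.T6.H23.HK.NF
import Pool.Agent.H662.ME.LFNabs

/-! ME A6 (helper662 for helper500): `S_LFN`, Euler products at the edge. -/

set_option autoImplicit false

namespace Pool.Agent.H662.ME.LFN

open NumberField IsDedekindDomain Filter Topology Polynomial

theorem main : Pool.Agent.H500.ME.S_LFN := by
  intro K _ _ n w r α B hα hB hB0 hF
  obtain ⟨c₀, hc₀⟩ := hF
  have hq : ∀ v : HeightOneSpectrum (𝓞 K), 2 ≤ Ideal.absNorm v.asIdeal :=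
    fun v => Pool.Agent.T6.H23.HK.two_le_nm v
  exact main_abs (q := fun v : HeightOneSpectrum (𝓞 K) => Ideal.absNorm v.asIdeal) (w := w)
    (α := α) (B := B) hq
    (fun s hs => (Pool.Agent.T6.H23.HK.normSys (F := K)).summable s hs) r hα hB hB0 c₀ hc₀

end Pool.Agent.H662.ME.LFN
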